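import Pool.Agent.W716.FV.StmA

/-!
# Symmetry of `A`
-/

set_option autoImplicit false
set_option linter.all false

open MeasureTheory

namespace Pool.Agent.W21.FV

open Pool.Agent.W716.FV

section

variable {V : Type} [NormedAddCommGroup V] [InnerProductSpace ℝ V] [FiniteDimensional ℝ V]
  [MeasurableSpace V] [BorelSpace V] {μ : Measure V} [IsProbabilityMeasure μ]
  (h1i : Integrable (fun x : V => ‖x‖) μ) (h2i : Integrable (fun x : V => ‖x‖ ^ 2) μ)
  {R : ℝ} {u : V → ℝ} (hR : 0 ≤ R) (hlip : ∀ x y, |u x - u y| ≤ R * ‖x - y‖)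
  (hd : ∀ c : V, ∀ᵐ x ∂μ, DifferentiableAt ℝ u (x + c))
  (hibp : ∀ c v : V, ∫ x, u (x + c) * inner ℝ x v ∂μ = ∫ x, fderiv ℝ u (x + c) v ∂μ)

include hR hlip in
theorem good_cont : Continuous u := by
  have : LipschitzWith (Real.toNNReal R) u := by
    refine LipschitzWith.of_dist_le_mul fun x y => ?_
    rw [Real.dist_eq, dist_eq_norm, Real.coe_toNNReal R hR]
    exact hlip x y
  exact this.continuous

include hR hlip in
theorem fd_norm (x : V) : ‖fderiv ℝ u x‖ ≤ R := by
  refine norm_fderiv_le_of_lip' ℝ hR (Filter.Eventually.of_forall fun y => ?_)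
  rw [Real.norm_eq_abs]
  exact hlip y x

theorem meas_fd (u : V → ℝ) : Measurable (fderiv ℝ u) := measurable_fderiv ℝ u

include hR hlip in
theorem growth (x c : V) : |u (x + c)| ≤ R * (‖x‖ + ‖c‖) + |u 0| := by
  have e1 := hlip (x + c) 0
  rw [sub_zero] at e1
  have e3 : |u (x + c)| ≤ |u (x + c) - u 0| + |u 0| := by
    have := abs_add_le (u (x + c) - u 0) (u 0)
    rwa [sub_add_cancel] at this
  have e4 : R * ‖x + c‖ ≤ R * (‖x‖ + ‖c‖) :=
    mul_le_mul_of_nonneg_left (norm_add_le x c) hR
  linarith

include h1i h2i hR hlip in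
theorem trans_int (c : V) : Integrable (fun x => u (x + c) • x) μ := by
  have hb : Integrable (fun x : V => R * ‖x‖ ^ 2 + (R * ‖c‖ + |u 0|) * ‖x‖) μ :=
    (h2i.const_mul R).add (h1i.const_mul _)
  refine hb.mono' ?_ (Filter.Eventually.of_forall fun x => ?_)
  · have hm1 : Continuous (fun x : V => u (x + c) • x) :=
      ((good_cont hR hlip).comp (continuous_id.add continuous_const)).smul continuous_id
    exact hm1.aestronglyMeasurable
  · rw [norm_smul, Real.norm_eq_abs]
    calc |u (x + c)| * ‖x‖ ≤ (R * (‖x‖ + ‖c‖) + |u 0|) * ‖x‖ :=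
          mul_le_mul_of_nonneg_right (growth hR hlip x c) (norm_nonneg _)
      _ = _ := by ring

theorem tr_deriv {c : V} {x : V} (h : DifferentiableAt ℝ u (x + c)) :
    HasFDerivAt (fun d : V => u (x + d)) (fderiv ℝ u (x + c)) c := by
  have h1 : HasFDerivAt (fun d : V => u (x + d))
      ((fderiv ℝ u (x + c)).comp (ContinuousLinearMap.id ℝ V)) c :=
    h.hasFDerivAt.comp c ((hasFDerivAt_id c).const_add x)
  rwa [ContinuousLinearMap.comp_id] at h1

include h1i hR hlip hd in
/-- first derivative -/
theorem first (c : V) :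
    Integrable (fun x => fderiv ℝ u (x + c)) μ ∧
      HasFDerivAt (fun d : V => ∫ x, u (x + d) ∂μ) (∫ x, fderiv ℝ u (x + c) ∂μ) c := by
  have hc := good_cont hR hlip
  refine hasFDerivAt_integral_of_dominated_loc_of_lip' (F := fun d x => u (x + d))
    (s := Set.univ) (bound := fun _ => R) Filter.univ_mem ?_ ?_ ?_ ?_ ?_ ?_
  · intro d _
    exact (hc.comp (continuous_id.add continuous_const)).aestronglyMeasurable
  · have hb : Integrable (fun x : V => R * ‖x‖ + (R * ‖c‖ + |u 0|)) μ :=
      (h1i.const_mul R).add (integrable_const _)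
    refine hb.mono' (hc.comp (continuous_id.add continuous_const)).aestronglyMeasurable
      (Filter.Eventually.of_forall fun x => ?_)
    rw [Real.norm_eq_abs]
    have := growth hR hlip x c
    linarith
  · exact ((meas_fd u).comp (measurable_id.add measurable_const)).aestronglyMeasurable
  · refine Filter.Eventually.of_forall fun x d _ => ?_
    rw [Real.norm_eq_abs]
    have := hlip (x + d) (x + c)
    rwa [add_sub_add_left_eq_sub] at this
  · exact integrable_const _
  · filter_upwards [hd c] with x hx
    exact tr_deriv hx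

include h1i h2i hR hlip hd hibp in
/-- the form of the first derivative -/
theorem first_eq (c : V) :
    ∫ x, fderiv ℝ u (x + c) ∂μ = innerSL ℝ (∫ x, u (x + c) • x ∂μ) := by
  ext v
  have h1 := (first h1i hR hlip hd c).1
  have h2 := trans_int h1i h2i hR hlip c
  rw [ContinuousLinearMap.integral_apply h1, ← hibp, innerSL_apply_apply, real_inner_comm,
    ← integral_inner h2 v]
  refine integral_congr_ae (Filter.Eventually.of_forall fun x => ?_)
  simp only
  rw [real_inner_smul_right, real_inner_comm]

include h1i h2i hR hlip hd in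
/-- second derivative -/
theorem second (c : V) :
    Integrable (fun x => (fderiv ℝ u (x + c)).smulRight x) μ ∧
      HasFDerivAt (fun d : V => ∫ x, u (x + d) • x ∂μ)
        (∫ x, (fderiv ℝ u (x + c)).smulRight x ∂μ) c := by
  have hc := good_cont hR hlip
  refine hasFDerivAt_integral_of_dominated_loc_of_lip' (F := fun d x => u (x + d) • x)
    (s := Set.univ) (bound := fun x => R * ‖x‖) Filter.univ_mem ?_ ?_ ?_ ?_ ?_ ?_
  · intro d _
    exact (trans_int h1i h2i hR hlip d).aestronglyMeasurable
  · exact trans_int h1i h2i hR hlip c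
  · have hm2 : Measurable (fun x : V => (fderiv ℝ u (x + c), x)) :=
      ((meas_fd u).comp (measurable_id.add measurable_const)).prodMk measurable_id
    have hm3 : Continuous (fun p : (V →L[ℝ] ℝ) × V => p.1.smulRight p.2) :=
      (ContinuousLinearMap.smulRightL ℝ V V).isBoundedBilinearMap.continuous
    exact (hm3.measurable.comp hm2).aestronglyMeasurable
  · refine Filter.Eventually.of_forall fun x d _ => ?_
    rw [← sub_smul, norm_smul, Real.norm_eq_abs]
    have := hlip (x + d) (x + c)
    rw [add_sub_add_left_eq_sub] at this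
    calc |u (x + d) - u (x + c)| * ‖x‖ ≤ (R * ‖d - c‖) * ‖x‖ :=
          mul_le_mul_of_nonneg_right this (norm_nonneg _)
      _ = _ := by ring
  · exact h1i.const_mul R
  · filter_upwards [hd c] with x hx
    exact (tr_deriv hx).smul_const x

include h1i h2i hR hlip hd hibp in
/-- symmetry for fixed shift -/
theorem symm_c (c v w : V) :
    ∫ x, fderiv ℝ u (x + c) v * inner ℝ x w ∂μ =
      ∫ x, fderiv ℝ u (x + c) w * inner ℝ x v ∂μ := by
  have h1 : ∀ c, HasFDerivAt (fun d : V => ∫ x, u (x + d) ∂μ)
      (innerSL ℝ (∫ x, u (x + c) • x ∂μ)) c := fun c => by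
    rw [← first_eq h1i h2i hR hlip hd hibp c]
    exact (first h1i hR hlip hd c).2
  obtain ⟨h2, h3⟩ := second h1i h2i hR hlip hd c
  have h3' := (innerSL ℝ (E := V)).hasFDerivAt.comp c h3
  have h4 := second_derivative_symmetric (𝕜 := ℝ) h1 h3' v w
  have h5 : ∀ v w : V, ((innerSL ℝ (E := V)).comp
      (∫ x, (fderiv ℝ u (x + c)).smulRight x ∂μ)) v w =
      ∫ x, fderiv ℝ u (x + c) v * inner ℝ x w ∂μ := by
    intro v w
    rw [ContinuousLinearMap.comp_apply, innerSL_apply_apply,
      ContinuousLinearMap.integral_apply h2, real_inner_comm,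
      ← integral_inner (h2.apply_continuousLinearMap v) w]
    refine integral_congr_ae (Filter.Eventually.of_forall fun x => ?_)
    simp only [ContinuousLinearMap.smulRight_apply]
    rw [real_inner_smul_right, real_inner_comm]
  rw [h5, h5] at h4
  exact h4

end

theorem main (hPM : PMoments) (hGM : GaussMoments) (hGI : GaussIBP) (hGF : GoodFacts) :
    ASymm := by
  intro n R u hR hu η v w
  obtain ⟨hPp, hPi, -⟩ := hPM n
  have hGp := (hGM n).1
  have hsf : SFinite nu := by
    unfold nu
    infer_instance
  have hmk : Measurable (kd) := by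
    unfold kd
    fun_prop
  have hcu := good_cont hR hu.lip
  have hI : Integrable (fun z : E n × ℝ => z.2 • (fderiv ℝ u (xi η z)).smulRight z.1) (P n) := by
    have hb := (hPi 1 1 (by norm_num)).const_mul R
    refine hb.mono' ?_ (Filter.Eventually.of_forall fun z => ?_)
    · have hm2 : Measurable (fun z : E n × ℝ => (fderiv ℝ u (xi η z), z.1)) := by
        refine Measurable.prodMk ?_ measurable_fst
        refine (meas_fd u).comp ?_
        unfold xi
        exact measurable_fst.add (measurable_snd.smul_const η)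
      have hm3 : Continuous (fun p : (E n →L[ℝ] ℝ) × E n => p.1.smulRight p.2) :=
        (ContinuousLinearMap.smulRightL ℝ (E n) (E n)).isBoundedBilinearMap.continuous
      exact (measurable_snd.smul (hm3.measurable.comp hm2)).aestronglyMeasurable
    · rw [norm_smul, ContinuousLinearMap.norm_smulRight_apply, Real.norm_eq_abs, pow_one, pow_one]
      have := fd_norm hR hu.lip (xi η z)
      calc |z.2| * (‖fderiv ℝ u (xi η z)‖ * ‖z.1‖) ≤ |z.2| * (R * ‖z.1‖) := by gcongr
        _ = _ := by ring
  have key : ∀ v w : E n, (inner ℝ (AA u η v) w : ℝ) =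
      ∫ κ, κ * ∫ x, fderiv ℝ u (x + κ • η) v * inner ℝ x w ∂(gam n) ∂nu := by
    intro v w
    unfold AA
    rw [ContinuousLinearMap.integral_apply hI]
    have h6 : Integrable (fun z : E n × ℝ => (z.2 • (fderiv ℝ u (xi η z)).smulRight z.1) v)
        (P n) := hI.apply_continuousLinearMap v
    have h7 : (inner ℝ (∫ z : E n × ℝ, (z.2 • (fderiv ℝ u (xi η z)).smulRight z.1) v ∂(P n)) w :
        ℝ) = ∫ z : E n × ℝ, (inner ℝ ((z.2 • (fderiv ℝ u (xi η z)).smulRight z.1) v) w : ℝ)
          ∂(P n) := by
      rw [real_inner_comm, ← integral_inner h6 w]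
      refine integral_congr_ae (Filter.Eventually.of_forall fun z => ?_)
      exact real_inner_comm _ _
    rw [h7]
    have h8 : Integrable (fun z : E n × ℝ =>
        (inner ℝ ((z.2 • (fderiv ℝ u (xi η z)).smulRight z.1) v) w : ℝ)) (P n) := by
      have := h6.inner_const (𝕜 := ℝ) w
      exact this
    unfold P at h8 ⊢
    rw [integral_prod_symm _ h8]
    refine integral_congr_ae (Filter.Eventually.of_forall fun κ => ?_)
    simp only
    rw [← integral_const_mul]
    refine integral_congr_ae (Filter.Eventually.of_forall fun x => ?_)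
    simp only [ContinuousLinearMap.smul_apply, ContinuousLinearMap.smulRight_apply, xi]
    rw [real_inner_smul_left, real_inner_smul_left]
  rw [key, key]
  refine integral_congr_ae (Filter.Eventually.of_forall fun κ => ?_)
  simp only
  congr 1
  obtain ⟨hp, hi, -⟩ := hGM n
  obtain ⟨-, -, -, -, hd, -⟩ := hGF n R u hR hu
  have h1 := hi 1
  simp only [pow_one] at h1
  refine symm_c h1 (hi 2) hR hu.lip hd ?_ _ v w
  intro c v
  have h3 := hGI n (fun x => u (x + c)) R (fun x y => by
    have := hu.lip (x + c) (y + c)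
    rwa [add_sub_add_right_eq_sub] at this) v
  simp only [fderiv_comp_add_right] at h3
  exact h3

end Pool.Agent.W21.FV
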